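import Pool.Agent.Lib.MP_3c53be_lc.Main

open Pool.Agent.Lib.MP_3c53be_lc

/-- If an infinite mad family has a selector, some set projective in the selector is not
determined. -/
theorem Pool.Agent.Results.MP_3c53be_lc.SelectorNoMad.result (A : Set (Set ℕ)) (hA : IsMad A)
    (hinf : A.Infinite) (φ : Set ℕ → Set ℕ)
    (hφ : ∀ x : Set ℕ, x.Infinite → φ x ∈ A ∧ (φ x ∩ x).Infinite) :
    ∃ X : Set (ℕ → ℕ), ProjIn (selCode φ) X ∧ ¬ Determined X := by
  by_contra hn
  push Not at hn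
  exact Sel.false ⟨hA, hinf, hφ⟩ hn (df_sel φ)
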